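import Pool.Agent.X295.PfF

/-!
# MP_c076ed_nt: families of rational functions with several parameters: the exact set of the preperiodic points

Let `K` be a number field of degree `n` (for instance `ℚ`).  Consider the rational functions

  `f_t(z) = (p_0(t) + p_1(t) z + … + p_d(t) z^d) / (q_0(t) + … + q_e(t) z^e)`, `e < d`, `t ∈ K^m`,

where the `p_i` and `q_i` are polynomials over `K` in `m` variables, and put `δ_i = deg p_i`, `r = (δ_0 - δ_d) / d`.
Assume that

* `deg p_i ≤ (1 - i/d) δ_0 + (i/d) δ_d` (the Newton polygon of the numerator has one slope),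
* `deg q_i + i r ≤ deg q_e + e r` (the poles are not larger than the zeros), and
* `deg q_e + (e + 1) r < δ_0` (the value at `0` is large).

For example, `e = 0`, `q_0 = 1`, `p_d = 1`: all polynomials `z^d + p_{d-1}(t) z^{d-1} + … + p_0(t)` with
`deg p_i ≤ (1 - i/d) deg p_0`.

Then for all but `O(H^(n (m + 1) - 1 + n/β + ε))` of the parameters `t` of height at most `H`, where
`β = d / gcd(d, B! |δ_0 - δ_d|)`, the preperiodic points of `f_t` over ALL extensions `L` of `K` of degree at most `B`
are exactly infinity and the poles of `f_t` in `L`: at most `e + 1 ≤ d` points, and one point for polynomials.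

Proof.  Write `t = (x_1 / x_0, …, x_m / x_0)` with integers `x_i` of `K`.  Let `w` be a place of `L` above a place `v` of
`K` with `v(x_0) = k > 0`, prime to the leading forms of `p_0`, `p_d` and `q_e`, and let `f` be its ramification index.
The orbit of a point `z` which is not a pole goes to infinity if `w(z) ≠ - r f k`.  So `d` divides
`(δ_0 - δ_d) f k`, and `β` divides `k`.  This happens for few `x` (`Pool.Agent.X295.GalA` to `GalK` and `PfA`).
-/

set_option autoImplicit false

open NumberField Polynomial

namespace Pool.Agent.Results.MP_c076ed_nt.FamiliesSeveralParameters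

section
variable {L : Type} [Field L]

open Classical in
/-- The rational function `p / q`, `deg q < deg p`, on the projective line over `L`; `none` is the point
at infinity. -/
noncomputable def function (p q : L[X]) : Option L → Option L
  | none => none
  | some z => if q.eval z = 0 then none else some (p.eval z / q.eval z)

/-- The preperiodic points over `L`. -/
def PrePer (p q : L[X]) : Set (Option L) :=
  {x | ∃ a b : ℕ, a < b ∧ (function p q)^[a] x = (function p q)^[b] x}

/-- Infinity and the poles over `L`. -/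
def Poles (q : L[X]) : Set (Option L) := {x | ∀ z : L, x = some z → q.eval z = 0}

end

section
variable {K : Type} [Field K] {m : ℕ}

/-- The conditions on the degrees of the coefficients. -/
structure IsFamily (d e : ℕ) (P Q : (MvPolynomial (Fin m) K)[X]) : Prop where
  degree : P.natDegree = d ∧ Q.natDegree = e
  two : 2 ≤ d
  lt : e < d
  const : P.coeff 0 ≠ 0
  ne_zero : Q ≠ 0
  slopeP : ∀ i ≤ d, d * (P.coeff i).totalDegree ≤
    (d - i) * (P.coeff 0).totalDegree + i * (P.coeff d).totalDegree
  slopeQ : ∀ i ≤ e, Q.coeff i ≠ 0 →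
    d * (Q.coeff i).totalDegree + (e - i) * (P.coeff d).totalDegree ≤
      d * (Q.coeff e).totalDegree + (e - i) * (P.coeff 0).totalDegree
  large : d * (Q.coeff e).totalDegree + (e + 1) * (P.coeff 0).totalDegree <
    d * (P.coeff 0).totalDegree + (e + 1) * (P.coeff d).totalDegree

/-- The polynomial at `t`, with coefficients in `L`. -/
noncomputable def at' (L : Type) [Field L] [Algebra K L] (P : (MvPolynomial (Fin m) K)[X])
    (t : Fin m → K) : L[X] := (P.map (MvPolynomial.eval t)).map (algebraMap K L)

variable [NumberField K] {ι : Type} [Fintype ι]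

/-- The height of `t` is at most `H`: `t = (x_1 / x_0, …, x_m / x_0)` with integers `x_i` of `K` whose
coordinates in the basis `ω` are at most `H`. -/
def HeightLe (ω : Module.Basis ι ℤ (𝓞 K)) (H : ℕ) (t : Fin m → K) : Prop :=
  ∃ x : Fin (m + 1) → 𝓞 K, x 0 ≠ 0 ∧ (∀ i k, |ω.repr (x i) k| ≤ H) ∧
    ∀ j, t j = (x j.succ : K) / (x 0 : K)

/-- The parameters `t` of height at most `H` such that, for some extension `L` of `K` of degree at most
`B`, the preperiodic points over `L` are not exactly infinity and the poles, or are more than `e + 1`. -/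
def Exceptions (ω : Module.Basis ι ℤ (𝓞 K)) (e : ℕ) (P Q : (MvPolynomial (Fin m) K)[X])
    (B H : ℕ) : Set (Fin m → K) :=
  {t | HeightLe ω H t ∧ ∃ (L : Type) (_ : Field L) (_ : NumberField L) (_ : Algebra K L),
    Module.finrank K L ≤ B ∧ ¬ (PrePer (at' L P t) (at' L Q t) = Poles (at' L Q t) ∧
      (PrePer (at' L P t) (at' L Q t)).encard ≤ e + 1)}

end

theorem iter_none {L : Type} [Field L] (p q : L[X]) (n : ℕ) : (function p q)^[n] none = none := by
  induction n with
  | zero => rfl
  | succ n ih => rw [Function.iterate_succ_apply', ih]; rfl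

theorem poles_sub {L : Type} [Field L] (p q : L[X]) : Poles q ⊆ PrePer p q := by
  intro x hx
  have h1 : function p q x = none := by
    rcases x with _ | z
    · rfl
    · exact if_pos (hx z rfl)
  refine ⟨1, 2, by norm_num, ?_⟩
  rw [Function.iterate_succ_apply, Function.iterate_succ_apply, h1, iter_none, iter_none]

theorem poles_card {L : Type} [Field L] {q : L[X]} {e : ℕ} (hq : q ≠ 0) (he : q.natDegree ≤ e) :
    (Poles q).encard ≤ e + 1 := by
  classical
  have h1 : Poles q ⊆ ((insert none (q.roots.toFinset.image some) : Finset (Option L)) :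
      Set (Option L)) := by
    intro x hx
    rcases x with _ | z
    · simp
    · have := hx z rfl
      simp only [Finset.coe_insert, Finset.coe_image, Set.mem_insert_iff, reduceCtorEq,
        false_or, Set.mem_image, Finset.mem_coe, Multiset.mem_toFinset, mem_roots hq,
        IsRoot.def]
      exact ⟨z, this, rfl⟩
  refine (Set.encard_le_encard h1).trans ?_
  rw [Set.encard_coe_eq_coe_finsetCard]
  have h2 : (insert none (q.roots.toFinset.image some) : Finset (Option L)).card ≤ e + 1 := by
    refine (Finset.card_insert_le _ _).trans (Nat.add_le_add_right ?_ 1)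
    refine Finset.card_image_le.trans ((Multiset.toFinset_card_le _).trans ?_)
    exact (card_roots' q).trans he
  exact_mod_cast h2

/-- **The preperiodic points of almost all members.** -/
theorem result (K : Type) [Field K] [NumberField K] {ι : Type} [Fintype ι]
    (ω : Module.Basis ι ℤ (𝓞 K)) (m d e B : ℕ) (P Q : (MvPolynomial (Fin m) K)[X])
    (hF : IsFamily d e P Q) (ε : ℝ) (hε : 0 < ε) :
    ∃ C : ℝ, ∀ H : ℕ, 1 ≤ H → (Exceptions ω e P Q B H).Finite ∧
      ((Exceptions ω e P Q B H).ncard : ℝ) ≤
        C * (H : ℝ) ^ (((m : ℝ) + 1) * Module.finrank ℚ K - 1 + (Module.finrank ℚ K : ℝ) /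
          (d / Nat.gcd d (B.factorial *
            (((P.coeff 0).totalDegree : ℤ) - (P.coeff d).totalDegree).natAbs) : ℕ) + ε) := by
  obtain ⟨⟨hPd, hQe⟩, h2, hlt, h0, hQ0, hP, hQ, hl⟩ := hF
  have hP0 : P ≠ 0 := by
    rintro rfl
    exact h0 (coeff_zero 0)
  have hcd : P.coeff d ≠ 0 := by
    rw [← hPd]
    exact leadingCoeff_ne_zero.2 hP0
  have hce : Q.coeff e ≠ 0 := by
    rw [← hQe]
    exact leadingCoeff_ne_zero.2 hQ0
  obtain ⟨C, -, hC⟩ := Pool.Agent.X295.Pf.rat_few ω h2 hlt h0 hcd hce
    (fun i hi => ⟨hPd ▸ le_natDegree_of_ne_zero hi, hP i (hPd ▸ le_natDegree_of_ne_zero hi)⟩)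
    (fun i hi => ⟨hQe ▸ le_natDegree_of_ne_zero hi, hQ i (hQe ▸ le_natDegree_of_ne_zero hi) hi⟩)
    hl B ε hε
  refine ⟨C, fun H hH => hC H hH _ ?_⟩
  rintro t ⟨ht, L, iF, iN, iA, hL, hnot⟩
  refine ⟨ht, L, iF, iN, iA, hL, ?_⟩
  by_contra hcon
  push Not at hcon
  obtain ⟨h3, h4⟩ := hcon
  apply hnot
  have h5 : PrePer (at' L P t) (at' L Q t) = Poles (at' L Q t) := by
    refine Set.Subset.antisymm ?_ (poles_sub _ _)
    rintro x ⟨a, b, hab, he⟩ z rfl
    by_contra hz
    exact h4 z hz a b hab he
  refine ⟨h5, ?_⟩
  rw [h5]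
  refine poles_card (fun h6 => h3 ?_) ?_
  · show (at' L Q t).coeff e = 0
    rw [h6, coeff_zero]
  · exact (natDegree_map_le).trans (natDegree_map_le.trans hQe.le)

end Pool.Agent.Results.MP_c076ed_nt.FamiliesSeveralParameters
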