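import Pool.Agent.X12.Dyn4

/-!
# The distribution of the number of rational preperiodic points of the quadratic polynomials

Morton and Silverman ask for a uniform bound for the number of rational preperiodic points, already for
the polynomials `z² + c`, `c ∈ ℚ` (every quadratic polynomial over `ℚ` is conjugate to exactly one of
them).  We order the `c` by their height `H(c) = max (|numerator|, denominator)` and prove,
unconditionally:

* the number of `c` with `H(c) ≤ X` for which `z² + c` has a rational preperiodic point (different from
  `∞`) is `X ^ (1 + o(1))`;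
* all but at most `C X ^ (1 / 2 + ε)` of these have exactly four rational preperiodic points, and the
  exponent `1 / 2` is the exact one: the number of those with another number of points is
  `X ^ (1 / 2 + o(1))`;
* more precisely, for `N = 0, 1, 2, 3` the number of the `c` with more than `N` rational preperiodic
  points is `X ^ (1 + o(1))`, for `N = 4, 5, 6, 7` it is `X ^ (1 / 2 + o(1))`, and for all `N ≥ 4` it is
  at most `C X ^ (1 / 2 + ε)` (conjecturally there is no `c` for `N ≥ 8`);
* there are at most `C X ^ (1 / 2 + ε)` many `c` with a rational point of exact period at least three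
  (of any period).

The proof: a preperiodic point has denominator `d` with `d² = denominator of c`, numerators are at most
`2 X ^ (1 / 2)`.  For a cycle of length at least three the sums of consecutive numerators divide a power
of `d` (the product of `z_i + z_{i + 1}` over the cycle is one) and two such sums determine `c`.  Without
such cycles, more than four points give a point outside the obvious four which maps to a known point, and
this leads to an equation `(u - v) (u + v) = multiple of d²`, with few solutions.
-/

set_option autoImplicit false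

namespace Pool.Agent.Results.MP_c076ed_nt.QuadraticDistribution

open Filter Topology Function

/-- the quadratic polynomial `z² + c` -/
def quad (c : ℚ) : ℚ → ℚ := fun z => z ^ 2 + c

/-- the rational preperiodic points of `z² + c` (without `∞`): the points with a finite forward
orbit -/
def Preper (c : ℚ) : Set ℚ := {z | (Set.range fun k : ℕ => (quad c)^[k] z).Finite}

/-- the height of `c` is at most `X`: the numerator and the denominator in lowest terms are at most
`X` in absolute value -/
def HeightLe (X : ℝ) (c : ℚ) : Prop := |(c.num : ℝ)| ≤ X ∧ (c.den : ℝ) ≤ X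

/-- the parameters of height at most `X` with more than `N` rational preperiodic points -/
def MoreThan (N : ℕ) (X : ℝ) : Set ℚ := {c | HeightLe X c ∧ (N : ℕ∞) < (Preper c).encard}

/-- the parameters of height at most `X` with a rational preperiodic point but not exactly four -/
def NotFour (X : ℝ) : Set ℚ := {c | HeightLe X c ∧ (Preper c).Nonempty ∧ (Preper c).encard ≠ 4}

/-- the parameters of height at most `X` with a rational point of exact period at least three -/
def LongCycle (X : ℝ) : Set ℚ := {c | HeightLe X c ∧ ∃ z : ℚ, 3 ≤ minimalPeriod (quad c) z}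

/-- **Theorem.**  (1) All these sets are finite for `X ≥ 1`.  (2) For `N ≤ 3`, `X ^ (1 + o(1))`
parameters `c` of height at most `X` have more than `N` rational preperiodic points.  (3) For
`4 ≤ N ≤ 7` there are `X ^ (1 / 2 + o(1))` of them.  (4) There are `X ^ (1 / 2 + o(1))` parameters with
a rational preperiodic point and not exactly four of them.  (5) For every `ε > 0` there is `C` such that
for all `X ≥ 1`, at most `C X ^ (1 / 2 + ε)` parameters have a rational preperiodic point and not
exactly four of them, at most so many have more than `N` of them, for every `N ≥ 4`, and at most so many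
have a rational point of exact period at least three. -/
theorem result :
    (∀ (N : ℕ) (X : ℝ), 1 ≤ X →
      (MoreThan N X).Finite ∧ (NotFour X).Finite ∧ (LongCycle X).Finite) ∧
    (∀ N : ℕ, N ≤ 3 →
      Tendsto (fun X : ℝ => Real.log ((MoreThan N X).ncard : ℝ) / Real.log X) atTop (𝓝 1)) ∧
    (∀ N : ℕ, 4 ≤ N → N ≤ 7 →
      Tendsto (fun X : ℝ => Real.log ((MoreThan N X).ncard : ℝ) / Real.log X) atTop
        (𝓝 (1 / 2))) ∧
    Tendsto (fun X : ℝ => Real.log ((NotFour X).ncard : ℝ) / Real.log X) atTop (𝓝 (1 / 2)) ∧
    (∀ ε : ℝ, 0 < ε → ∃ C : ℝ, 0 < C ∧ ∀ X : ℝ, 1 ≤ X →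
      ((NotFour X).ncard : ℝ) ≤ C * X ^ (1 / 2 + ε) ∧
      (∀ N : ℕ, 4 ≤ N → ((MoreThan N X).ncard : ℝ) ≤ C * X ^ (1 / 2 + ε)) ∧
      ((LongCycle X).ncard : ℝ) ≤ C * X ^ (1 / 2 + ε)) := by
  refine ⟨fun N X hX => ?_, fun N hN => Pool.Agent.X12.Dyn.tendsto_few N hN,
    fun N h4 h7 => Pool.Agent.X12.Dyn.tendsto_many N h4 h7,
    Pool.Agent.X12.Dyn.tendsto_notFour, fun ε hε => ?_⟩
  · obtain ⟨C1, -, h1⟩ := Pool.Agent.X12.Dyn.some_upper 1 one_pos
    obtain ⟨C2, -, h2⟩ := Pool.Agent.X12.Dyn.notFour_upper 1 one_pos
    obtain ⟨C3, -, h3⟩ := Pool.Agent.X12.Dyn.long_upper 1 one_pos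
    exact ⟨(h1 N X hX).1, (h2 X hX).1, (h3 X hX).1⟩
  · obtain ⟨C1, hC1, h1⟩ := Pool.Agent.X12.Dyn.many_upper ε hε
    obtain ⟨C2, hC2, h2⟩ := Pool.Agent.X12.Dyn.notFour_upper ε hε
    obtain ⟨C3, hC3, h3⟩ := Pool.Agent.X12.Dyn.long_upper ε hε
    refine ⟨C1 + C2 + C3, by positivity, fun X hX => ?_⟩
    have hX0 : (0 : ℝ) ≤ X ^ (1 / 2 + ε) := Real.rpow_nonneg (by linarith) _
    have p1 := mul_nonneg hC1.le hX0
    have p2 := mul_nonneg hC2.le hX0
    have p3 := mul_nonneg hC3.le hX0
    refine ⟨(h2 X hX).2.trans ?_, fun N hN => (h1 N X hN hX).trans ?_,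
      (h3 X hX).2.trans ?_⟩ <;> linarith

end Pool.Agent.Results.MP_c076ed_nt.QuadraticDistribution
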