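import Pool.Agent.X12.Uni3

/-!
# Rational preperiodic points of all unicritical polynomials of even degree `d ≥ 4`

Morton and Silverman ask for a bound, for each degree `d`, for the number of rational preperiodic points of
the maps of degree `d` over `ℚ`.  For the unicritical polynomials `a z^d + b` of odd degree this is easy
(they are monotone on the real line), and for even degree it is open.  A unicritical polynomial
`a z^d + b`, `a b ≠ 0`, is conjugate over `ℚ` to exactly one polynomial `μ z^d + 1`, `μ = a b^(d - 1)`.  We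
order them by the height of `μ` and prove for all even `d ≥ 4`, unconditionally:

* `X ^ (2 / d + o(1))` of the polynomials with `H(μ) ≤ X` have a rational preperiodic point (different
  from `∞`);
* all but at most `C X ^ (1 / d + ε)` of these have exactly two rational preperiodic points;
* at most `C X ^ (1 / d + ε)` have more than `N` rational preperiodic points, for every `N ≥ 2`, and at
  most `C X ^ (1 / d + ε)` have a rational point of exact period at least two (of any period).

The proof: if there is a rational preperiodic point then the denominator of `μ` is `D ^ d`.  For two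
points `x ≠ y` which are both fixed, or consecutive points of a cycle, `μ (x ^ d - y ^ d) / (x - y)` is a
unit outside `D`; as its factors `x + y` and `(x ^ d - y ^ d) / (x² - y²)` are of the largest possible
size at each prime which does not divide `D`, the numerator of `μ` is up to the sign `E ^ (d - 1)` where
`E` is the denominator of `x + y`, and `E (x + y)` and `E ^ (d - 2) (x ^ d - y ^ d) / (x² - y²)` are
integers composed of primes of `D`.  They determine `E x` up to `d - 2` possibilities and then `E`.  If there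
is only one periodic point `p = P / Q` then a further preperiodic point leads to a preimage of `- p` and
`(Q + P) / (Q - P)` is a `d`-th power `(A / B) ^ d`, so `2 P` is divisible by `A - B` and `A + B`.
-/

set_option autoImplicit false

namespace Pool.Agent.Results.MP_c076ed_nt.UnicriticalEvenDegrees

open Filter Topology Function

/-- the unicritical polynomial `μ z^d + 1` -/
def uni (d : ℕ) (μ : ℚ) : ℚ → ℚ := fun z => μ * z ^ d + 1

/-- the rational preperiodic points of `μ z^d + 1` (without `∞`): the points with a finite forward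
orbit -/
def Preper (d : ℕ) (μ : ℚ) : Set ℚ := {z | (Set.range fun k : ℕ => (uni d μ)^[k] z).Finite}

/-- the height of `μ` is at most `X`: the numerator and the denominator in lowest terms are at most
`X` in absolute value -/
def HeightLe (X : ℝ) (μ : ℚ) : Prop := |(μ.num : ℝ)| ≤ X ∧ (μ.den : ℝ) ≤ X

/-- the `μ ≠ 0` of height at most `X` with more than `N` rational preperiodic points -/
def MoreThan (d N : ℕ) (X : ℝ) : Set ℚ :=
  {μ | μ ≠ 0 ∧ HeightLe X μ ∧ (N : ℕ∞) < (Preper d μ).encard}

/-- the `μ ≠ 0` of height at most `X` with a rational preperiodic point but not exactly two -/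
def NotTwo (d : ℕ) (X : ℝ) : Set ℚ :=
  {μ | μ ≠ 0 ∧ HeightLe X μ ∧ (Preper d μ).Nonempty ∧ (Preper d μ).encard ≠ 2}

/-- the `μ ≠ 0` of height at most `X` with a rational point of exact period at least two -/
def LongCycle (d : ℕ) (X : ℝ) : Set ℚ :=
  {μ | μ ≠ 0 ∧ HeightLe X μ ∧ ∃ z : ℚ, 2 ≤ minimalPeriod (uni d μ) z}

/-- **Theorem.**  Let `d ≥ 4` be even.  (0) The polynomial `a z^d + b`, `b ≠ 0`, is conjugate to
`μ z^d + 1`, `μ = a b^(d - 1)`.  (1) All these sets are finite for `X ≥ 1`.  (2) There are
`X ^ (2 / d + o(1))` many `μ` of height at most `X` with more than `N` rational preperiodic points, for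
`N = 0, 1`.  (3) For every `ε > 0` there is `C` such that for all `X ≥ 1`: at most `C X ^ (1 / d + ε)`
many `μ` have a rational preperiodic point and not exactly two of them, at most so many have more than `N`
of them, for every `N ≥ 2`, and at most so many have a rational point of exact period at least two. -/
theorem result (d : ℕ) (hd : Even d) (hd4 : 4 ≤ d) :
    (∀ a b z : ℚ, b ≠ 0 → uni d (a * b ^ (d - 1)) z = (a * (b * z) ^ d + b) / b) ∧
    (∀ (N : ℕ) (X : ℝ), 1 ≤ X →
      (MoreThan d N X).Finite ∧ (NotTwo d X).Finite ∧ (LongCycle d X).Finite) ∧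
    (∀ N : ℕ, N ≤ 1 →
      Tendsto (fun X : ℝ => Real.log ((MoreThan d N X).ncard : ℝ) / Real.log X) atTop
        (𝓝 (2 / d))) ∧
    (∀ ε : ℝ, 0 < ε → ∃ C : ℝ, 0 < C ∧ ∀ X : ℝ, 1 ≤ X →
      ((NotTwo d X).ncard : ℝ) ≤ C * X ^ (1 / (d : ℝ) + ε) ∧
      (∀ N : ℕ, 2 ≤ N → ((MoreThan d N X).ncard : ℝ) ≤ C * X ^ (1 / (d : ℝ) + ε)) ∧
      ((LongCycle d X).ncard : ℝ) ≤ C * X ^ (1 / (d : ℝ) + ε)) := by
  obtain ⟨j, rfl, hj⟩ : ∃ j : ℕ, d = 2 * j + 2 ∧ 1 ≤ j := by
    obtain ⟨k, hk⟩ := hd
    exact ⟨k - 1, by omega, by omega⟩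
  have hj0 : (0 : ℝ) < j + 1 := by positivity
  have e1 : (2 : ℝ) / ((2 * j + 2 : ℕ) : ℝ) = 1 / (j + 1) := by
    push_cast
    field_simp
  have e2 : (1 : ℝ) / ((2 * j + 2 : ℕ) : ℝ) = 1 / (2 * j + 2) := by
    push_cast
    rfl
  rw [e1, e2]
  refine ⟨fun a b z hb => ?_, fun N X hX => ?_,
    fun N h1 => Pool.Agent.X12.Uni.tendsto_few hj N h1, fun ε hε => ?_⟩
  · unfold uni
    have e : 2 * j + 2 - 1 = 2 * j + 1 := by omega
    rw [e, eq_div_iff hb]
    ring
  · obtain ⟨C1, -, h1⟩ := Pool.Agent.X12.Uni.some_upper hj 1 one_pos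
    obtain ⟨C2, -, h2⟩ := Pool.Agent.X12.Uni.exc_upper hj 1 one_pos
    exact ⟨(h1 N X hX).1, (h2 X hX).1.subset (Pool.Agent.X12.Uni.notTwo_sub j X),
      (h2 X hX).1.subset (Pool.Agent.X12.Uni.long_sub j X)⟩
  · obtain ⟨C, hC, h1⟩ := Pool.Agent.X12.Uni.exc_upper hj ε hε
    refine ⟨C, hC, fun X hX => ?_⟩
    have hle : ∀ S : Set ℚ, S ⊆ Pool.Agent.X12.Uni.ExcU j X →
        (S.ncard : ℝ) ≤ C * X ^ ((1 : ℝ) / (2 * j + 2) + ε) := by
      intro S hS
      refine le_trans ?_ (h1 X hX).2
      exact_mod_cast Set.ncard_le_ncard hS (h1 X hX).1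
    exact ⟨hle _ (Pool.Agent.X12.Uni.notTwo_sub j X),
      fun N hN => hle _ (Pool.Agent.X12.Uni.more_sub hN X),
      hle _ (Pool.Agent.X12.Uni.long_sub j X)⟩

end Pool.Agent.Results.MP_c076ed_nt.UnicriticalEvenDegrees
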